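import Mathlib

/-!
# Values at the points between separated zeros
-/

namespace Pool.Agent.MPd164ca

open Finset

private theorem fac_large {q μ Q X K : ℝ} (hq1 : q < 1) (hQ0 : 0 < Q) (hQ : Q ≤ q) (hμ : 1 < μ)
    (hK : K = (1 + μ) / (1 - q)) (hX : 1 ≤ Q * X) :
    0 < X - 1 ∧ 1 + μ * X ≤ μ * ((X - 1) * Real.exp (K * Q)) ∧
      μ * (1 + X / μ) ≤ (X - 1) * Real.exp (K * Q) := by
  have hq : 0 < 1 - q := by linarith
  have hX1 : 0 < X - 1 := by
    by_contra h
    have : X ≤ 1 := by linarith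
    nlinarith
  have hK0 : 0 < K := by rw [hK]; positivity
  have hKq : K * (1 - q) = 1 + μ := by rw [hK]; field_simp
  have h1 : 1 + μ ≤ (X - 1) * (K * Q) := by
    have h2 : 1 - q ≤ (X - 1) * Q := by nlinarith
    calc 1 + μ = K * (1 - q) := hKq.symm
      _ ≤ K * ((X - 1) * Q) := mul_le_mul_of_nonneg_left h2 hK0.le
      _ = (X - 1) * (K * Q) := by ring
  have h3 : K * Q + 1 ≤ Real.exp (K * Q) := Real.add_one_le_exp _
  have h4 : (X - 1) * (K * Q + 1) ≤ (X - 1) * Real.exp (K * Q) := mul_le_mul_of_nonneg_left h3 hX1.le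
  refine ⟨hX1, ?_, ?_⟩
  · have h5 : μ * ((X - 1) * (K * Q + 1)) ≤ μ * ((X - 1) * Real.exp (K * Q)) :=
      mul_le_mul_of_nonneg_left h4 (by linarith)
    have h6 : (X - 1) * (K * Q) ≤ μ * ((X - 1) * (K * Q)) := by
      have : 0 ≤ (X - 1) * (K * Q) := by positivity
      nlinarith
    linarith
  · have h5 : μ * (1 + X / μ) = μ + X := by
      field_simp
    rw [h5]
    linarith

private theorem fac_small {q μ Q X K : ℝ} (hq1 : q < 1) (hQ : Q ≤ q) (hμ : 1 < μ)
    (hK : K = (1 + μ) / (1 - q)) (hX0 : 0 < X) (hX : X ≤ Q) :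
    0 < 1 - X ∧ 1 + μ * X ≤ (1 - X) * Real.exp (K * Q) ∧
      1 + X / μ ≤ (1 - X) * Real.exp (K * Q) := by
  have hq : 0 < 1 - q := by linarith
  have hX1 : 0 < 1 - X := by linarith
  have hK0 : 0 < K := by rw [hK]; positivity
  have hKq : K * (1 - q) = 1 + μ := by rw [hK]; field_simp
  have hQ0 : 0 < Q := by linarith
  have h1 : (1 + μ) * X ≤ (1 - X) * (K * Q) := by
    calc (1 + μ) * X ≤ (1 + μ) * Q := mul_le_mul_of_nonneg_left hX (by linarith)
      _ = (1 - q) * (K * Q) := by rw [← hKq]; ring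
      _ ≤ (1 - X) * (K * Q) := mul_le_mul_of_nonneg_right (by linarith) (by positivity)
  have h3 : K * Q + 1 ≤ Real.exp (K * Q) := Real.add_one_le_exp _
  have h4 : (1 - X) * (K * Q + 1) ≤ (1 - X) * Real.exp (K * Q) := mul_le_mul_of_nonneg_left h3 hX1.le
  have h5 : 1 + μ * X ≤ (1 - X) * Real.exp (K * Q) := by linarith
  refine ⟨hX1, h5, le_trans ?_ h5⟩
  have h6 : X / μ ≤ X := div_le_self hX0.le hμ.le
  nlinarith

private theorem geom_le {q : ℝ} (h0 : 0 < q) (h1 : q < 1) (N : ℕ) :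
    ∑ k ∈ range N, q ^ (k + 1) ≤ 1 / (1 - q) := by
  have h2 : ∑ k ∈ range N, q ^ (k + 1) ≤ ∑ k ∈ range N, q ^ k :=
    sum_le_sum fun k _ => pow_le_pow_of_le_one h0.le h1.le (Nat.le_succ k)
  refine h2.trans ?_
  have h3 : ∑ k ∈ range N, q ^ k = (1 - q ^ N) / (1 - q) := by
    rw [eq_div_iff (by linarith)]
    have := geom_sum_mul q N
    linarith
  rw [h3]
  apply div_le_div_of_nonneg_right _ (by linarith)
  have : 0 < q ^ N := by positivity
  linarith

theorem sq_bound {ρ μ : ℝ} (hρ : 1 < ρ) (hμ : 1 < μ) :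
    ∃ C : ℝ, 0 < C ∧ ∀ (n : ℕ) (x : ℕ → ℝ), (∀ i < n, 0 < x i) →
      (∀ i, i + 1 < n → ρ ^ 2 * x i ≤ x (i + 1)) → ∀ j < n,
        0 < (-1) ^ (j + 1) * ∏ i ∈ range n, (1 - ρ * x j / x i) ∧
        ∏ i ∈ range n, (1 + μ * (ρ * x j) / x i) ≤
          C * μ ^ (j + 1) * |∏ i ∈ range n, (1 - ρ * x j / x i)| ∧
        μ ^ (j + 1) * ∏ i ∈ range n, (1 + ρ * x j / μ / x i) ≤
          C * |∏ i ∈ range n, (1 - ρ * x j / x i)| := by
  obtain ⟨q, hqd⟩ : ∃ q, q = 1 / ρ := ⟨_, rfl⟩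
  have hρ0 : 0 < ρ := by linarith
  have hq0 : 0 < q := by rw [hqd]; positivity
  have hqρ : q * ρ = 1 := by rw [hqd]; field_simp
  have hq1 : q < 1 := by
    rw [hqd, div_lt_one hρ0]
    exact hρ
  have hq : 0 < 1 - q := by linarith
  obtain ⟨K, hK⟩ : ∃ K, K = (1 + μ) / (1 - q) := ⟨_, rfl⟩
  have hK0 : 0 < K := by rw [hK]; positivity
  refine ⟨Real.exp (K / (1 - q)) * Real.exp (K / (1 - q)), by positivity, ?_⟩
  intro n x hx hstep j hj
  have hxj := hx j hj
  -- growth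
  have hgrow : ∀ k i, i + k < n → ρ ^ k * x i ≤ x (i + k) := by
    intro k
    induction k with
    | zero => intro i _; simp
    | succ k ih =>
      intro i hi
      have h1 := ih i (by omega)
      have h2 := hstep (i + k) (by omega)
      have h3 := hx (i + k) (by omega)
      have h4 : ρ * x (i + k) ≤ ρ ^ 2 * x (i + k) := by
        apply mul_le_mul_of_nonneg_right _ h3.le
        nlinarith
      calc ρ ^ (k + 1) * x i = ρ * (ρ ^ k * x i) := by ring
        _ ≤ ρ * x (i + k) := mul_le_mul_of_nonneg_left h1 hρ0.le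
        _ ≤ x (i + (k + 1)) := h4.trans h2
  have hgrow2 : ∀ k i, i + (k + 1) < n → ρ ^ (k + 2) * x i ≤ x (i + (k + 1)) := by
    intro k i hi
    have h1 := hgrow k i (by omega)
    have h2 := hstep (i + k) (by omega)
    calc ρ ^ (k + 2) * x i = ρ ^ 2 * (ρ ^ k * x i) := by ring
      _ ≤ ρ ^ 2 * x (i + k) := mul_le_mul_of_nonneg_left h1 (by positivity)
      _ ≤ x (i + (k + 1)) := h2
  -- the factors
  have hL : ∀ i ∈ range (j + 1), 1 ≤ q ^ (j - i + 1) * (ρ * x j / x i) := by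
    intro i hi
    have hi' : i ≤ j := Nat.lt_succ_iff.1 (mem_range.1 hi)
    have hxi := hx i (by omega)
    have h1 := hgrow (j - i) i (by omega)
    rw [show i + (j - i) = j by omega] at h1
    have h2 : q ^ (j - i + 1) * (ρ * x j / x i) = (q ^ (j - i) * x j) / x i := by
      rw [pow_succ]
      calc q ^ (j - i) * q * (ρ * x j / x i) = (q ^ (j - i) * ((q * ρ) * x j)) / x i := by ring
        _ = _ := by rw [hqρ, one_mul]
    rw [h2, le_div_iff₀ hxi, one_mul]
    have h3 : q ^ (j - i) * (ρ ^ (j - i) * x i) ≤ q ^ (j - i) * x j :=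
      mul_le_mul_of_nonneg_left h1 (by positivity)
    rwa [← mul_assoc, ← mul_pow, hqρ, one_pow, one_mul] at h3
  have hS : ∀ i ∈ Ico (j + 1) n, 0 < ρ * x j / x i ∧ ρ * x j / x i ≤ q ^ (i - (j + 1) + 1) := by
    intro i hi
    have hi' := mem_Ico.1 hi
    have hxi := hx i (by omega)
    refine ⟨by positivity, ?_⟩
    have h1 := hgrow2 (i - (j + 1)) j (by omega)
    rw [show j + (i - (j + 1) + 1) = i by omega] at h1
    rw [div_le_iff₀ hxi]
    have h3 : q ^ (i - (j + 1) + 1) * (ρ ^ (i - (j + 1) + 2) * x j) ≤ q ^ (i - (j + 1) + 1) * x i :=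
      mul_le_mul_of_nonneg_left h1 (by positivity)
    have h4 : q ^ (i - (j + 1) + 1) * (ρ ^ (i - (j + 1) + 2) * x j) =
        (q * ρ) ^ (i - (j + 1) + 1) * (ρ * x j) := by
      rw [mul_pow]
      ring
    rw [h4, hqρ, one_pow, one_mul] at h3
    exact h3
  have hQle : ∀ m : ℕ, q ^ (m + 1) ≤ q := fun m => by
    have := pow_le_pow_of_le_one hq0.le hq1.le (show 1 ≤ m + 1 by omega)
    simpa using this
  have FL := fun i (hi : i ∈ range (j + 1)) =>
    fac_large hq1 (pow_pos hq0 (j - i + 1)) (hQle _) hμ hK (hL i hi)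
  have FS := fun i (hi : i ∈ Ico (j + 1) n) =>
    fac_small hq1 (hQle (i - (j + 1))) hμ hK (hS i hi).1 (hS i hi).2
  -- the products
  obtain ⟨A, hA⟩ : ∃ A, A = ∏ i ∈ range (j + 1), (ρ * x j / x i - 1) := ⟨_, rfl⟩
  obtain ⟨B, hB⟩ : ∃ B, B = ∏ i ∈ Ico (j + 1) n, (1 - ρ * x j / x i) := ⟨_, rfl⟩
  have hA0 : 0 < A := by rw [hA]; exact prod_pos fun i hi => (FL i hi).1
  have hB0 : 0 < B := by rw [hB]; exact prod_pos fun i hi => (FS i hi).1
  have split : ∀ f : ℕ → ℝ, ∏ i ∈ range n, f i = (∏ i ∈ range (j + 1), f i) * ∏ i ∈ Ico (j + 1) n, f i :=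
    fun f => (prod_range_mul_prod_Ico f (by omega)).symm
  have hprod : ∏ i ∈ range n, (1 - ρ * x j / x i) = (-1) ^ (j + 1) * (A * B) := by
    rw [split, ← hB]
    have h1 : ∏ i ∈ range (j + 1), (1 - ρ * x j / x i) = (-1) ^ (j + 1) * A := by
      rw [hA]
      calc ∏ i ∈ range (j + 1), (1 - ρ * x j / x i)
          = ∏ i ∈ range (j + 1), ((-1) * (ρ * x j / x i - 1)) := prod_congr rfl fun i _ => by ring
        _ = (-1) ^ (j + 1) * ∏ i ∈ range (j + 1), (ρ * x j / x i - 1) := by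
            rw [prod_mul_distrib, prod_const, card_range]
    rw [h1]
    ring
  have hsign : ((-1 : ℝ) ^ (j + 1)) * (-1) ^ (j + 1) = 1 := by
    rw [← mul_pow]; norm_num
  have habs : |∏ i ∈ range n, (1 - ρ * x j / x i)| = A * B := by
    rw [hprod, abs_mul, abs_pow, abs_neg, abs_one, one_pow, one_mul, abs_of_pos (by positivity)]
  have e1 : ∏ i ∈ range (j + 1), Real.exp (K * q ^ (j - i + 1)) ≤ Real.exp (K / (1 - q)) := by
    rw [← Real.exp_sum]
    apply Real.exp_le_exp.2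
    rw [← mul_sum]
    have h1 : ∑ i ∈ range (j + 1), q ^ (j - i + 1) = ∑ i ∈ range (j + 1), q ^ (i + 1) := by
      have := sum_range_reflect (fun i => q ^ (i + 1)) (j + 1)
      rw [← this]
      exact sum_congr rfl fun i _ => by simp
    rw [h1, div_eq_mul_one_div]
    exact mul_le_mul_of_nonneg_left (geom_le hq0 hq1 _) hK0.le
  have e2 : ∏ i ∈ Ico (j + 1) n, Real.exp (K * q ^ (i - (j + 1) + 1)) ≤ Real.exp (K / (1 - q)) := by
    rw [← Real.exp_sum]
    apply Real.exp_le_exp.2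
    rw [← mul_sum]
    have h1 : ∑ i ∈ Ico (j + 1) n, q ^ (i - (j + 1) + 1) = ∑ i ∈ range (n - (j + 1)), q ^ (i + 1) := by
      rw [sum_Ico_eq_sum_range]
      exact sum_congr rfl fun i _ => by rw [Nat.add_sub_cancel_left]
    rw [h1, div_eq_mul_one_div]
    exact mul_le_mul_of_nonneg_left (geom_le hq0 hq1 _) hK0.le
  obtain ⟨E1, hE1⟩ : ∃ E, E = ∏ i ∈ range (j + 1), Real.exp (K * q ^ (j - i + 1)) := ⟨_, rfl⟩
  obtain ⟨E2, hE2⟩ : ∃ E, E = ∏ i ∈ Ico (j + 1) n, Real.exp (K * q ^ (i - (j + 1) + 1)) := ⟨_, rfl⟩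
  rw [← hE1] at e1
  rw [← hE2] at e2
  have hE10 : 0 < E1 := by rw [hE1]; exact prod_pos fun i _ => Real.exp_pos _
  have hE20 : 0 < E2 := by rw [hE2]; exact prod_pos fun i _ => Real.exp_pos _
  have hEE : E1 * E2 ≤ Real.exp (K / (1 - q)) * Real.exp (K / (1 - q)) :=
    mul_le_mul e1 e2 hE20.le (Real.exp_pos _).le
  have hXpos : ∀ i, i < n → 0 < ρ * x j / x i := fun i hi => by
    have := hx i hi
    positivity
  refine ⟨?_, ?_, ?_⟩
  · rw [hprod, ← mul_assoc, hsign, one_mul]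
    positivity
  · rw [habs, split]
    have h1 : ∏ i ∈ range (j + 1), (1 + μ * (ρ * x j) / x i) ≤ μ ^ (j + 1) * (A * E1) := by
      have h2 : μ ^ (j + 1) * (A * E1) = ∏ i ∈ range (j + 1),
          (μ * ((ρ * x j / x i - 1) * Real.exp (K * q ^ (j - i + 1)))) := by
        rw [prod_mul_distrib, prod_mul_distrib, prod_const, card_range, hA, hE1]
      rw [h2]
      refine prod_le_prod (fun i hi => ?_) (fun i hi => ?_)
      · have := hXpos i (by have := mem_range.1 hi; omega)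
        rw [mul_div_assoc]
        positivity
      · rw [mul_div_assoc]
        exact (FL i hi).2.1
    have h3 : ∏ i ∈ Ico (j + 1) n, (1 + μ * (ρ * x j) / x i) ≤ B * E2 := by
      rw [hB, hE2, ← prod_mul_distrib]
      refine prod_le_prod (fun i hi => ?_) (fun i hi => ?_)
      · have := hXpos i (mem_Ico.1 hi).2
        rw [mul_div_assoc]
        positivity
      · rw [mul_div_assoc]
        exact (FS i hi).2.1
    have h4 : 0 ≤ ∏ i ∈ Ico (j + 1) n, (1 + μ * (ρ * x j) / x i) := by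
      refine prod_nonneg fun i hi => ?_
      have := hXpos i (mem_Ico.1 hi).2
      rw [mul_div_assoc]
      positivity
    calc _ ≤ (μ ^ (j + 1) * (A * E1)) * (B * E2) := mul_le_mul h1 h3 h4 (by positivity)
      _ = (E1 * E2) * (μ ^ (j + 1) * (A * B)) := by ring
      _ ≤ (Real.exp (K / (1 - q)) * Real.exp (K / (1 - q))) * (μ ^ (j + 1) * (A * B)) :=
          mul_le_mul_of_nonneg_right hEE (by positivity)
      _ = _ := by ring
  · rw [habs, split]
    have h1 : μ ^ (j + 1) * ∏ i ∈ range (j + 1), (1 + ρ * x j / μ / x i) ≤ A * E1 := by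
      have h2 : μ ^ (j + 1) * ∏ i ∈ range (j + 1), (1 + ρ * x j / μ / x i) =
          ∏ i ∈ range (j + 1), (μ * (1 + ρ * x j / x i / μ)) := by
        rw [prod_mul_distrib, prod_const, card_range]
        congr 1
        exact prod_congr rfl fun i _ => by rw [div_right_comm]
      rw [h2, hA, hE1, ← prod_mul_distrib]
      refine prod_le_prod (fun i hi => ?_) (fun i hi => ?_)
      · have := hXpos i (by have := mem_range.1 hi; omega)
        positivity
      · exact (FL i hi).2.2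
    have h3 : ∏ i ∈ Ico (j + 1) n, (1 + ρ * x j / μ / x i) ≤ B * E2 := by
      rw [hB, hE2, ← prod_mul_distrib]
      refine prod_le_prod (fun i hi => ?_) (fun i hi => ?_)
      · have := hXpos i (mem_Ico.1 hi).2
        rw [div_right_comm]
        positivity
      · rw [div_right_comm]
        exact (FS i hi).2.2
    have h4 : 0 ≤ ∏ i ∈ Ico (j + 1) n, (1 + ρ * x j / μ / x i) := by
      refine prod_nonneg fun i hi => ?_
      have := hXpos i (mem_Ico.1 hi).2
      rw [div_right_comm]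
      positivity
    calc _ = (μ ^ (j + 1) * ∏ i ∈ range (j + 1), (1 + ρ * x j / μ / x i)) *
          ∏ i ∈ Ico (j + 1) n, (1 + ρ * x j / μ / x i) := by ring
      _ ≤ (A * E1) * (B * E2) := mul_le_mul h1 h3 h4 (by positivity)
      _ = (E1 * E2) * (A * B) := by ring
      _ ≤ _ := mul_le_mul_of_nonneg_right hEE (by positivity)

end Pool.Agent.MPd164ca
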