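import Pool.Agent.Lib.MP_d164ca_an.Defs

/-!
# Sign changes give real zeros
-/

namespace Pool.Agent.MPd164ca

open Polynomial Finset

theorem sq_count {p : ℝ[X]} {n : ℕ} (hn : p.natDegree ≤ n) (hp0 : 0 < p.eval 0) (x : ℕ → ℝ)
    (hx : 0 < n → 0 < x 0) (hmono : ∀ j, j + 1 < n → x j < x (j + 1))
    (hs : ∀ j < n, 0 < (-1) ^ (j + 1) * p.eval (-(x j))) : Hyperbolic p := by
  classical
  have hpne : p ≠ 0 := by
    rintro rfl
    simp at hp0
  -- the test points
  obtain ⟨y, hy0, hys⟩ : ∃ y : ℕ → ℝ, y 0 = 0 ∧ ∀ k, y (k + 1) = -(x k) :=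
    ⟨fun j => Nat.casesOn j 0 fun k => -(x k), rfl, fun k => rfl⟩
  have hsign : ∀ j ≤ n, 0 < (-1) ^ j * p.eval (y j) := by
    intro j hj
    rcases j with _ | k
    · rw [hy0, pow_zero, one_mul]
      exact hp0
    · rw [hys]
      exact hs k (by omega)
  have hdec : ∀ j < n, y (j + 1) < y j := by
    intro j hj
    rcases j with _ | k
    · rw [hy0, hys]
      have h1 := hx (by omega)
      linarith
    · rw [hys, hys]
      have h1 := hmono k (by omega)
      linarith
  have hanti : ∀ i j, i ≤ j → j ≤ n → y j ≤ y i := by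
    intro i j hij
    induction j, hij using Nat.le_induction with
    | base => intro _; exact le_rfl
    | succ j _ ih => intro hj; exact (hdec j (by omega)).le.trans (ih (by omega))
  have hroot : ∀ j < n, ∃ z, y (j + 1) < z ∧ z < y j ∧ p.eval z = 0 := by
    intro j hj
    have h1 := hsign j (by omega)
    have h2 := hsign (j + 1) (by omega)
    have h3 := (hdec j hj).le
    obtain ⟨F, hF⟩ : ∃ F : ℝ → ℝ, ∀ z, F z = (-1) ^ j * p.eval z := ⟨_, fun z => rfl⟩
    have hFc : ContinuousOn F (Set.Icc (y (j + 1)) (y j)) := by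
      have : F = fun z => (-1) ^ j * p.eval z := funext hF
      rw [this]
      exact (continuous_const.mul p.continuous).continuousOn
    have hF1 : F (y (j + 1)) < 0 := by
      rw [hF]
      rw [pow_succ] at h2
      linarith
    have hF2 : 0 < F (y j) := by rw [hF]; exact h1
    obtain ⟨z, ⟨hz1, hz2⟩, hz3⟩ := intermediate_value_Icc h3 hFc ⟨hF1.le, hF2.le⟩
    refine ⟨z, lt_of_le_of_ne hz1 ?_, lt_of_le_of_ne hz2 ?_, ?_⟩
    · rintro rfl; exact hF1.ne hz3
    · rintro rfl; exact hF2.ne' hz3
    · rw [hF] at hz3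
      rcases mul_eq_zero.1 hz3 with h4 | h4
      · exact absurd h4 (pow_ne_zero _ (by norm_num))
      · exact h4
  choose! z hz1 hz2 hz3 using hroot
  have hinj : Set.InjOn (fun j => (z j : ℂ)) (range n : Finset ℕ) := by
    intro i hi j hj hij
    have hij' : z i = z j := Complex.ofReal_injective hij
    rw [mem_coe, mem_range] at hi hj
    rcases lt_trichotomy i j with hlt | heq | hgt
    · have h1 := hz1 i hi
      have h2 := hz2 j hj
      have h3 := hanti (i + 1) j hlt (by omega)
      linarith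
    · exact heq
    · have h1 := hz1 j hj
      have h2 := hz2 i hi
      have h3 := hanti (j + 1) i hgt (by omega)
      linarith
  right
  intro w hw
  obtain ⟨q, hq⟩ : ∃ q : ℂ[X], q = p.map (algebraMap ℝ ℂ) := ⟨_, rfl⟩
  have hq0 : q ≠ 0 := by
    rw [hq]; exact (Polynomial.map_ne_zero_iff (algebraMap ℝ ℂ).injective).2 hpne
  have hmem : ∀ v : ℂ, v ∈ q.roots.toFinset ↔ aeval v p = 0 := by
    intro v
    rw [Multiset.mem_toFinset, mem_roots hq0, IsRoot.def, hq, eval_map, aeval_def]
  have hsub : (range n).image (fun j => (z j : ℂ)) ⊆ q.roots.toFinset := by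
    intro v hv
    obtain ⟨j, hj, rfl⟩ := Finset.mem_image.1 hv
    rw [mem_range] at hj
    rw [hmem]
    have h1 := hz3 j hj
    have h2 : aeval ((z j : ℝ) : ℂ) p = ((p.eval (z j) : ℝ) : ℂ) := by
      have := aeval_algebraMap_apply ℂ (z j) p
      rw [coe_aeval_eq_eval] at this
      exact this
    rw [h2, h1, Complex.ofReal_zero]
  have hcard : q.roots.toFinset.card ≤ ((range n).image (fun j => (z j : ℂ))).card := by
    rw [Finset.card_image_of_injOn hinj, card_range]
    refine (Multiset.toFinset_card_le _).trans ((card_roots' q).trans ?_)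
    rw [hq]
    exact natDegree_map_le.trans hn
  have heq := Finset.eq_of_subset_of_card_le hsub hcard
  have hw2 := (hmem w).2 hw
  rw [← heq] at hw2
  obtain ⟨j, -, rfl⟩ := Finset.mem_image.1 hw2
  exact Complex.ofReal_im _

end Pool.Agent.MPd164ca
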