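import Pool.Agent.Lib.MP_d164ca_an.LS.ShiftC

/-!
# Large shifts, q of degree two: definitions
-/

namespace Pool.Agent.MPd164ca

open Polynomial Finset

/-- The Jensen polynomial of `γ`. -/
noncomputable def jen (γ : ℕ → ℝ) (n : ℕ) : ℝ[X] :=
  ∑ k ∈ range (n + 1), monomial k ((n.choose k : ℝ) * γ k)

theorem jen_coeff (γ : ℕ → ℝ) (n k : ℕ) : (jen γ n).coeff k = (n.choose k : ℝ) * γ k := by
  unfold jen
  rw [finsetSum_coeff]
  simp only [coeff_monomial]
  rw [Finset.sum_ite_eq']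
  split_ifs with h
  · rfl
  · rw [Nat.choose_eq_zero_of_lt (by simpa using h), Nat.cast_zero, zero_mul]

theorem jen_eval (γ : ℕ → ℝ) (n : ℕ) (x : ℝ) :
    (jen γ n).eval x = ∑ k ∈ range (n + 1), (n.choose k : ℝ) * γ k * x ^ k := by
  unfold jen
  rw [eval_finsetSum]
  refine Finset.sum_congr rfl fun k _ => ?_
  rw [eval_monomial]

end Pool.Agent.MPd164ca
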