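import Pool.Agent.Lib.MP_d164ca_an.SQ.Defs

/-!
# Hyperbolic Jensen polynomials give multiplier sequences
-/

namespace Pool.Agent.MPd164ca

open Polynomial Finset Filter Topology

private theorem Jen_natDegree {γ : ℕ → ℝ} (hpos : ∀ k, 0 < γ k) (n : ℕ) :
    (jen γ n).natDegree = n := by
  apply le_antisymm
  · rw [natDegree_le_iff_coeff_eq_zero]
    intro k hk
    rw [jen_coeff, Nat.choose_eq_zero_of_lt hk, Nat.cast_zero, zero_mul]
  · apply le_natDegree_of_ne_zero
    rw [jen_coeff, Nat.choose_self, Nat.cast_one, one_mul]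
    exact (hpos n).ne'

private theorem Jen_fac {γ : ℕ → ℝ} (hpos : ∀ k, 0 < γ k) {N : ℕ} (h : Hyperbolic (jen γ N)) :
    ∃ t : ℕ → ℝ, (∀ j, 0 ≤ t j) ∧
      jen γ N = C (γ 0) * ∏ i ∈ range N, (1 + C (t i) * X) := by
  have hN := Jen_natDegree hpos N
  obtain ⟨s, -, hs0, -, hs⟩ := fac_pos h (by
    intro k hk
    rw [hN] at hk
    rw [jen_coeff]
    have h1 := hpos k
    have h2 : (0 : ℝ) < (N.choose k : ℝ) := by exact_mod_cast Nat.choose_pos hk
    positivity)
  refine ⟨s, hs0, ?_⟩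
  apply Polynomial.funext
  intro x
  have hx := hs (x : ℂ)
  rw [hN] at hx
  have hc : (jen γ N).coeff 0 = γ 0 := by
    rw [jen_coeff]; simp
  rw [hc] at hx
  have hl : aeval (x : ℂ) (jen γ N) = (((jen γ N).eval x : ℝ) : ℂ) := by
    have := Polynomial.aeval_algebraMap_apply ℂ x (jen γ N)
    simpa using this
  rw [hl] at hx
  have hx' : (jen γ N).eval x = γ 0 * ∏ j ∈ range N, (1 + s j * x) := by
    exact_mod_cast hx
  rw [hx', eval_mul, eval_C, eval_prod]
  simp

private theorem Jen_scaled {γ : ℕ → ℝ} (hpos : ∀ k, 0 < γ k) {N : ℕ} (h : Hyperbolic (jen γ N))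
    {σ : ℝ} (hσ : 0 < σ) :
    IsMultiplierSequence (fun k => ∑ j ∈ range (k + 1),
      (jen γ N).coeff j * σ ^ (k - j) * (k.descFactorial j : ℝ)) := by
  obtain ⟨t, ht, hfac⟩ := Jen_fac hpos h
  have h1 := ms_finite (m := 0) (N := N) (t := fun i => t i / σ)
    (fun j => div_nonneg (ht j) hσ.le)
  have h2 := ms_geom h1 (γ 0) hσ
  have he : (fun k : ℕ => ∑ j ∈ range (k + 1),
      (jen γ N).coeff j * σ ^ (k - j) * (k.descFactorial j : ℝ)) =
      fun k : ℕ => γ 0 * σ ^ k * ∑ j ∈ range (k + 1),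
        ((X ^ 0 * ∏ i ∈ range N, (1 + C (t i / σ) * X) : ℝ[X]).coeff j) *
          (k.descFactorial j : ℝ) := by
    funext k
    rw [Finset.mul_sum]
    refine Finset.sum_congr rfl fun j hj => ?_
    have hjk : j ≤ k := by
      rw [Finset.mem_range] at hj; omega
    have hcomp : (X ^ 0 * ∏ i ∈ range N, (1 + C (t i / σ) * X) : ℝ[X]) =
        (∏ i ∈ range N, (1 + C (t i) * X) : ℝ[X]).comp (C σ⁻¹ * X) := by
      rw [pow_zero, one_mul, Polynomial.prod_comp]
      refine Finset.prod_congr rfl fun i _ => ?_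
      simp only [add_comp, one_comp, mul_comp, C_comp, X_comp]
      rw [← mul_assoc, ← C_mul, div_eq_mul_inv]
    rw [hcomp, comp_C_mul_X_coeff, hfac, coeff_C_mul]
    have hpw : σ ^ k = σ ^ (k - j) * σ ^ j := by
      rw [← pow_add]; congr 1; omega
    rw [hpw]
    have hsj : σ ^ j * σ⁻¹ ^ j = 1 := by
      rw [← mul_pow, mul_inv_cancel₀ hσ.ne', one_pow]
    linear_combination (-(γ 0 * (∏ i ∈ range N, (1 + C (t i) * X) : ℝ[X]).coeff j *
      σ ^ (k - j) * (k.descFactorial j : ℝ))) * hsj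
  rw [he]
  exact h2

private theorem Jen_top {γ : ℕ → ℝ} (hpos : ∀ k, 0 < γ k) {N : ℕ} (h : Hyperbolic (jen γ N)) :
    IsMultiplierSequence (fun k => (N.descFactorial k : ℝ) * γ k) := by
  refine ss_ms_limit (g := fun n k => ∑ j ∈ range (k + 1),
      (jen γ N).coeff j * (1 / ((n : ℝ) + 1)) ^ (k - j) * (k.descFactorial j : ℝ))
    (fun n => Jen_scaled hpos h (by positivity)) ?_
  intro k
  have hcont : Continuous (fun σ : ℝ => ∑ j ∈ range (k + 1),
      (jen γ N).coeff j * σ ^ (k - j) * (k.descFactorial j : ℝ)) := by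
    fun_prop
  have hlim := (hcont.tendsto 0).comp (tendsto_one_div_add_atTop_nhds_zero_nat (𝕜 := ℝ))
  have hval : (∑ j ∈ range (k + 1),
      (jen γ N).coeff j * (0 : ℝ) ^ (k - j) * (k.descFactorial j : ℝ)) =
      (N.descFactorial k : ℝ) * γ k := by
    rw [Finset.sum_range_succ, Finset.sum_eq_zero, zero_add]
    · rw [Nat.sub_self, pow_zero, mul_one, Nat.descFactorial_self, jen_coeff,
        Nat.descFactorial_eq_factorial_mul_choose]
      push_cast
      ring
    · intro j hj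
      rw [Finset.mem_range] at hj
      rw [zero_pow (by omega)]
      ring
  rw [hval] at hlim
  exact hlim

private theorem Jen_lim (k : ℕ) : Tendsto (fun n : ℕ => (n.descFactorial k : ℝ) *
    (1 / ((n : ℝ) + 1)) ^ k) atTop (𝓝 1) := by
  induction k with
  | zero => simp
  | succ k ih =>
    have h1 : Tendsto (fun n : ℕ => ((n - k : ℕ) : ℝ) * (1 / ((n : ℝ) + 1))) atTop (𝓝 1) := by
      have h2 : Tendsto (fun n : ℕ => 1 - ((k : ℝ) + 1) * (1 / ((n : ℝ) + 1))) atTop
          (𝓝 (1 - ((k : ℝ) + 1) * 0)) :=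
        tendsto_const_nhds.sub ((tendsto_one_div_add_atTop_nhds_zero_nat (𝕜 := ℝ)).const_mul _)
      rw [mul_zero, sub_zero] at h2
      refine h2.congr' ?_
      filter_upwards [eventually_ge_atTop k] with n hn
      rw [Nat.cast_sub hn]
      field_simp
      ring
    have h3 := h1.mul ih
    rw [mul_one] at h3
    refine h3.congr fun n => ?_
    rw [Nat.descFactorial_succ, pow_succ]
    push_cast
    ring

theorem sq_ms {γ : ℕ → ℝ} (hpos : ∀ k, 0 < γ k) (h : ∀ n, Hyperbolic (jen γ n)) :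
    IsMultiplierSequence γ := by
  refine ss_ms_limit (g := fun n k => 1 * (1 / ((n : ℝ) + 1)) ^ k *
      ((n.descFactorial k : ℝ) * γ k)) (fun n => ms_geom (Jen_top hpos (h n)) 1 (by positivity)) ?_
  intro k
  have h1 := (Jen_lim k).mul_const (γ k)
  rw [one_mul] at h1
  refine h1.congr fun n => ?_
  ring

end Pool.Agent.MPd164ca
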