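import Mathlib

namespace Pool.Agent.MPd164ca

open Finset

private noncomputable def mshG (σ : ℝ) (n : ℕ) (y : ℝ) : ℝ :=
  ∑ k ∈ range (n + 1), (n.choose k : ℝ) * σ ^ (k ^ 2) * y ^ k

private theorem msh_rec (σ : ℝ) (n : ℕ) (y : ℝ) :
    mshG σ (n + 1) y = mshG σ n y + σ * y * mshG σ n (σ ^ 2 * y) := by
  unfold mshG
  rw [Finset.sum_range_succ' _ (n + 1), Finset.mul_sum]
  have h1 : ∑ k ∈ range (n + 1), (n.choose k : ℝ) * σ ^ (k ^ 2) * y ^ k =
      ∑ k ∈ range (n + 1), (n.choose (k + 1) : ℝ) * σ ^ ((k + 1) ^ 2) * y ^ (k + 1) + 1 := by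
    rw [Finset.sum_range_succ' _ n, Finset.sum_range_succ _ n, Nat.choose_eq_zero_of_lt (Nat.lt_succ_self n)]
    simp
  rw [h1]
  have h2 : ∀ k ∈ range (n + 1), ((n + 1).choose (k + 1) : ℝ) * σ ^ ((k + 1) ^ 2) * y ^ (k + 1) =
      (n.choose (k + 1) : ℝ) * σ ^ ((k + 1) ^ 2) * y ^ (k + 1) +
      σ * y * ((n.choose k : ℝ) * σ ^ (k ^ 2) * (σ ^ 2 * y) ^ k) := by
    intro k _
    rw [Nat.choose_succ_succ]
    have e1 : σ ^ ((k + 1) ^ 2) = σ ^ (k ^ 2) * (σ ^ 2) ^ k * σ := by
      rw [← pow_mul, ← pow_add, ← pow_succ]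
      congr 1
      ring
    push_cast
    rw [e1, mul_pow, pow_succ y k]
    ring
  rw [Finset.sum_congr rfl h2, Finset.sum_add_distrib]
  simp
  ring

private theorem msh_sgn {n : ℕ} {x : ℕ → ℝ} (hx : ∀ i < n, 0 < x i) {t : ℝ} (j : ℕ) (hj : j ≤ n)
    (h1 : ∀ i < j, x i ≤ t) (h2 : ∀ i < n, j ≤ i → t ≤ x i) :
    0 ≤ (-1) ^ j * ∏ i ∈ range n, (1 + (-t) / x i) := by
  obtain ⟨m, rfl⟩ := Nat.exists_eq_add_of_le hj
  rw [Finset.prod_range_add, ← mul_assoc]
  have e : (-1 : ℝ) ^ j * ∏ i ∈ range j, (1 + (-t) / x i) = ∏ i ∈ range j, (t / x i - 1) := by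
    have : (-1 : ℝ) ^ j = ∏ _i ∈ range j, (-1 : ℝ) := by rw [Finset.prod_const, Finset.card_range]
    rw [this, ← Finset.prod_mul_distrib]
    exact Finset.prod_congr rfl fun i _ => by ring
  rw [e]
  refine mul_nonneg (Finset.prod_nonneg fun i hi => ?_) (Finset.prod_nonneg fun i hi => ?_)
  · have hi' := Finset.mem_range.1 hi
    have h3 := h1 i hi'
    have h4 := hx i (by omega)
    rw [sub_nonneg, le_div_iff₀ h4]
    linarith
  · have hi' := Finset.mem_range.1 hi
    have h3 := h2 (j + i) (by omega) (by omega)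
    have h4 := hx (j + i) (by omega)
    rw [neg_div]
    have : t / x (j + i) ≤ 1 := by rw [div_le_one h4]; exact h3
    linarith

private theorem msh_cont (σ : ℝ) (n : ℕ) : Continuous fun t : ℝ => mshG σ n (-t) := by
  unfold mshG
  fun_prop

private theorem msh_zero (σ : ℝ) (n : ℕ) {a b : ℝ} (hab : a ≤ b) (j : ℕ)
    (h1 : 0 ≤ (-1) ^ j * mshG σ n (-a)) (h2 : 0 ≤ (-1) ^ (j + 1) * mshG σ n (-b)) :
    ∃ t, a ≤ t ∧ t ≤ b ∧ mshG σ n (-t) = 0 := by
  have hc : ContinuousOn (fun t : ℝ => (-1) ^ j * mshG σ n (-t)) (Set.Icc a b) :=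
    (continuous_const.mul (msh_cont σ n)).continuousOn
  have h3 : (-1 : ℝ) ^ j * mshG σ n (-b) ≤ 0 := by
    rw [pow_succ] at h2
    linarith
  obtain ⟨t, ht, ht2⟩ := intermediate_value_Icc' hab hc (show (0 : ℝ) ∈ Set.Icc _ _ from ⟨h3, h1⟩)
  refine ⟨t, ht.1, ht.2, ?_⟩
  have : (-1 : ℝ) ^ j ≠ 0 := pow_ne_zero _ (by norm_num)
  exact (mul_eq_zero.1 ht2).resolve_left this

private theorem msh_inf {σ : ℝ} (h0 : 0 < σ) (h1 : σ < 1) (n : ℕ) {t : ℝ}
    (ht : 2 ^ n / σ ^ (n ^ 2) ≤ t) (ht1 : 1 ≤ t) (hn : 1 ≤ n) : 0 ≤ (-1) ^ n * mshG σ n (-t) := by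
  obtain ⟨m, rfl⟩ : ∃ m, n = m + 1 := ⟨n - 1, by omega⟩
  unfold mshG
  rw [Finset.sum_range_succ, mul_add]
  have e1 : (-1 : ℝ) ^ (m + 1) * (((m + 1).choose (m + 1) : ℝ) * σ ^ ((m + 1) ^ 2) * (-t) ^ (m + 1)) =
      σ ^ ((m + 1) ^ 2) * t ^ (m + 1) := by
    rw [Nat.choose_self, neg_pow t, Nat.cast_one, one_mul]
    have : (-1 : ℝ) ^ (m + 1) * (-1 : ℝ) ^ (m + 1) = 1 := by rw [← mul_pow]; norm_num
    calc (-1 : ℝ) ^ (m + 1) * (σ ^ ((m + 1) ^ 2) * ((-1) ^ (m + 1) * t ^ (m + 1))) =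
        ((-1 : ℝ) ^ (m + 1) * (-1 : ℝ) ^ (m + 1)) * (σ ^ ((m + 1) ^ 2) * t ^ (m + 1)) := by ring
      _ = _ := by rw [this, one_mul]
  rw [e1]
  have h2 : |(-1 : ℝ) ^ (m + 1) * ∑ k ∈ range (m + 1), ((m + 1).choose k : ℝ) * σ ^ (k ^ 2) * (-t) ^ k| ≤
      2 ^ (m + 1) * t ^ m := by
    rw [abs_mul, abs_pow, abs_neg, abs_one, one_pow, one_mul]
    refine (Finset.abs_sum_le_sum_abs _ _).trans ?_
    have h3 : ∑ k ∈ range (m + 1), |((m + 1).choose k : ℝ) * σ ^ (k ^ 2) * (-t) ^ k| ≤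
        ∑ k ∈ range (m + 1), ((m + 1).choose k : ℝ) * t ^ m := by
      refine Finset.sum_le_sum fun k hk => ?_
      have hk' := Finset.mem_range.1 hk
      rw [abs_mul, abs_mul, Nat.abs_cast, abs_pow, abs_pow, abs_neg, abs_of_pos h0, abs_of_nonneg (by linarith : (0 : ℝ) ≤ t)]
      have a1 : σ ^ (k ^ 2) ≤ 1 := pow_le_one₀ h0.le h1.le
      have a2 : t ^ k ≤ t ^ m := pow_le_pow_right₀ ht1 (by omega)
      calc ((m + 1).choose k : ℝ) * σ ^ (k ^ 2) * t ^ k ≤ ((m + 1).choose k : ℝ) * 1 * t ^ m := by gcongr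
        _ = _ := by ring
    refine h3.trans ?_
    rw [← Finset.sum_mul]
    have h4 : ∑ k ∈ range (m + 1), ((m + 1).choose k : ℝ) ≤ 2 ^ (m + 1) := by
      have h5 := Nat.sum_range_choose (m + 1)
      have h6 : ∑ k ∈ range (m + 1), (m + 1).choose k ≤ 2 ^ (m + 1) := by
        rw [← h5, Finset.sum_range_succ _ (m + 1)]
        omega
      exact_mod_cast h6
    gcongr
  have h3 := (abs_le.1 h2).1
  have h4 : 2 ^ (m + 1) * t ^ m ≤ σ ^ ((m + 1) ^ 2) * t ^ (m + 1) := by
    rw [div_le_iff₀ (by positivity)] at ht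
    rw [pow_succ t m]
    have : (0 : ℝ) ≤ t ^ m := by positivity
    calc 2 ^ (m + 1) * t ^ m ≤ (t * σ ^ ((m + 1) ^ 2)) * t ^ m := by gcongr
      _ = _ := by ring
  linarith

private theorem msh_prod (σ : ℝ) (n : ℕ) (y : ℕ → ℝ) (hy : ∀ i < n, 0 < y i)
    (hinj : ∀ i < n, ∀ j < n, y i = y j → i = j) (hz : ∀ i < n, mshG σ n (-(y i)) = 0) (t : ℝ) :
    mshG σ n t = ∏ i ∈ range n, (1 + t / y i) := by
  classical
  set P : Polynomial ℝ := ∑ k ∈ range (n + 1), Polynomial.C ((n.choose k : ℝ) * σ ^ (k ^ 2)) * Polynomial.X ^ k with hP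
  set Q : Polynomial ℝ := ∏ i ∈ range n, (1 + Polynomial.C (1 / y i) * Polynomial.X) with hQ
  have eP : ∀ s, P.eval s = mshG σ n s := by
    intro s
    rw [hP, Polynomial.eval_finsetSum]
    unfold mshG
    exact Finset.sum_congr rfl fun k _ => by simp
  have eQ : ∀ s, Q.eval s = ∏ i ∈ range n, (1 + s / y i) := by
    intro s
    rw [hQ, Polynomial.eval_prod]
    refine Finset.prod_congr rfl fun i _ => ?_
    simp
    ring
  have dP : P.natDegree ≤ n := by
    refine Polynomial.natDegree_sum_le_of_forall_le _ _ fun k hk => ?_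
    exact (Polynomial.natDegree_C_mul_X_pow_le _ _).trans (by have := Finset.mem_range.1 hk; omega)
  have dQ : Q.natDegree ≤ n := by
    refine (Polynomial.natDegree_prod_le _ _).trans ?_
    refine (Finset.sum_le_sum (g := fun _ => 1) fun i _ => ?_).trans (by simp)
    refine (Polynomial.natDegree_add_le _ _).trans ?_
    simp only [Polynomial.natDegree_one, zero_le, sup_of_le_right]
    exact (Polynomial.natDegree_C_mul_le _ _).trans (by simp)
  have hD : P - Q = 0 := by
    refine Polynomial.eq_zero_of_natDegree_lt_card_of_eval_eq_zero' (P - Q)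
      (insert 0 ((range n).image fun i => -(y i))) ?_ ?_
    · intro s hs
      rw [Polynomial.eval_sub, eP, eQ]
      rcases Finset.mem_insert.1 hs with h | h
      · subst h
        unfold mshG
        rw [Finset.sum_range_succ']
        simp
      · obtain ⟨i, hi, rfl⟩ := Finset.mem_image.1 h
        rw [hz i (Finset.mem_range.1 hi), Finset.prod_eq_zero hi, sub_zero]
        rw [neg_div, div_self (hy i (Finset.mem_range.1 hi)).ne']
        norm_num
    · have h1 : (0 : ℝ) ∉ (range n).image fun i => -(y i) := by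
        intro h
        obtain ⟨i, hi, h2⟩ := Finset.mem_image.1 h
        have := hy i (Finset.mem_range.1 hi)
        linarith
      rw [Finset.card_insert_of_notMem h1, Finset.card_image_of_injOn, Finset.card_range]
      · refine lt_of_le_of_lt (Polynomial.natDegree_sub_le _ _) ?_
        exact Nat.lt_succ_of_le (max_le dP dQ)
      · intro i hi j hj hij
        exact hinj i (Finset.mem_range.1 hi) j (Finset.mem_range.1 hj) (neg_injective hij)
  rw [← eP, ← eQ, sub_eq_zero.1 hD]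

private theorem msh_main {σ : ℝ} (h0 : 0 < σ) (h1 : σ < 1) (n : ℕ) :
    ∃ x : ℕ → ℝ, (∀ i < n, 0 < x i) ∧ (∀ i, i + 1 < n → x i ≤ σ ^ 2 * x (i + 1)) ∧
      ∀ y : ℝ, mshG σ n y = ∏ i ∈ range n, (1 + y / x i) := by
  have hs2 : 0 < σ ^ 2 := by positivity
  have hs1 : σ ^ 2 < 1 := pow_lt_one₀ h0.le h1 (by norm_num)
  induction n with
  | zero => exact ⟨fun _ => 1, fun i hi => absurd hi (by omega), fun i hi => absurd hi (by omega), fun y => by simp [mshG]⟩
  | succ n ih =>
    obtain ⟨x, hx, hxs, hprod⟩ := ih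
    have hmono : ∀ i j, i ≤ j → j < n → x i ≤ x j := by
      intro i j hij
      induction j, hij using Nat.le_induction with
      | base => exact fun _ => le_rfl
      | succ j hij ih =>
        intro hj
        have a1 := ih (by omega)
        have a2 := hxs j hj
        have a3 := hx (j + 1) hj
        nlinarith
    have hmono2 : ∀ i j, i < j → j < n → x i ≤ σ ^ 2 * x j := by
      intro i j hij hj
      obtain ⟨k, rfl⟩ : ∃ k, j = k + 1 := ⟨j - 1, by omega⟩
      exact (hmono i k (by omega) (by omega)).trans (hxs k hj)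
    -- signs
    have sA : ∀ j < n, 0 ≤ (-1) ^ (j + 1) * mshG σ (n + 1) (-(x j)) := by
      intro j hj
      have e1 : mshG σ n (-(x j)) = 0 := by
        rw [hprod, Finset.prod_eq_zero (Finset.mem_range.2 hj)]
        rw [neg_div, div_self (hx j hj).ne']
        norm_num
      have s1 := msh_sgn (x := x) (n := n) hx (t := σ ^ 2 * x j) j hj.le
        (fun i hi => hmono2 i j hi hj)
        (fun i hi hji => by
          have a1 := hmono j i hji hi
          have a2 := hx j hj
          nlinarith)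
      rw [← hprod] at s1
      rw [msh_rec, e1, zero_add, pow_succ]
      have e2 : (-1 : ℝ) ^ j * (-1) * (σ * -(x j) * mshG σ n (σ ^ 2 * -(x j))) =
          (σ * x j) * ((-1) ^ j * mshG σ n (-(σ ^ 2 * x j))) := by
        rw [mul_neg (σ ^ 2)]
        ring
      rw [e2]
      have := hx j hj
      positivity
    have sB : ∀ j < n, 0 ≤ (-1) ^ (j + 1) * mshG σ (n + 1) (-(x j / σ ^ 2)) := by
      intro j hj
      have hxj := hx j hj
      have e0 : σ ^ 2 * -(x j / σ ^ 2) = -(x j) := by field_simp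
      have e1 : mshG σ n (-(x j)) = 0 := by
        rw [hprod, Finset.prod_eq_zero (Finset.mem_range.2 hj)]
        rw [neg_div, div_self hxj.ne']
        norm_num
      rw [msh_rec, e0, e1, mul_zero, add_zero, hprod]
      refine msh_sgn (x := x) (n := n) hx (t := x j / σ ^ 2) (j + 1) (by omega) (fun i hi => ?_) (fun i hi hji => ?_)
      · rw [le_div_iff₀ hs2]
        have a1 := hmono i j (by omega) hj
        have a2 := hx i (by omega)
        nlinarith
      · rw [div_le_iff₀ hs2]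
        have := hmono2 j i (by omega) hi
        linarith
    -- intervals
    obtain ⟨a, ha⟩ : ∃ a : ℕ → ℝ, a = fun j => if j = 0 then 0 else x (j - 1) / σ ^ 2 := ⟨_, rfl⟩
    obtain ⟨b, hb⟩ : ∃ b : ℕ → ℝ, b = fun j => if j < n then x j else
      max (a j) (max (2 ^ (n + 1) / σ ^ ((n + 1) ^ 2)) 1) := ⟨_, rfl⟩
    have ha0 : a 0 = 0 := by rw [ha]; simp
    have haS : ∀ j, a (j + 1) = x j / σ ^ 2 := by intro j; rw [ha]; simp
    have hbn : ∀ j < n, b j = x j := by intro j hj; rw [hb]; simp [hj]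
    have hab : ∀ j < n + 1, a j ≤ b j := by
      intro j hj
      rcases Nat.lt_or_ge j n with h | h
      · rw [hbn j h]
        rcases Nat.eq_zero_or_pos j with h' | h'
        · rw [h', ha0]; exact (hx 0 (by omega)).le
        · obtain ⟨k, rfl⟩ : ∃ k, j = k + 1 := ⟨j - 1, by omega⟩
          rw [haS, div_le_iff₀ hs2]
          have := hxs k h
          linarith
      · rw [hb]
        simp only [not_lt.2 h, if_false]
        exact le_max_left _ _
    have hsa : ∀ j < n + 1, 0 ≤ (-1) ^ j * mshG σ (n + 1) (-(a j)) := by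
      intro j hj
      rcases Nat.eq_zero_or_pos j with h' | h'
      · rw [h', ha0]
        unfold mshG
        rw [Finset.sum_range_succ']
        simp
      · obtain ⟨k, rfl⟩ : ∃ k, j = k + 1 := ⟨j - 1, by omega⟩
        rw [haS]
        exact sB k (by omega)
    have hsb : ∀ j < n + 1, 0 ≤ (-1) ^ (j + 1) * mshG σ (n + 1) (-(b j)) := by
      intro j hj
      rcases Nat.lt_or_ge j n with h | h
      · rw [hbn j h]
        exact sA j h
      · have e : j = n := by omega
        have hbj : b j = max (a j) (max (2 ^ (n + 1) / σ ^ ((n + 1) ^ 2)) 1) := by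
          rw [hb]
          simp only [not_lt.2 h, if_false]
        rw [hbj, e]
        exact msh_inf h0 h1 (n + 1) ((le_max_left _ _).trans (le_max_right _ _))
          ((le_max_right _ _).trans (le_max_right _ _)) (by omega)
    have hex : ∀ j, ∃ t, j < n + 1 → a j ≤ t ∧ t ≤ b j ∧ mshG σ (n + 1) (-t) = 0 := by
      intro j
      by_cases hj : j < n + 1
      · obtain ⟨t, ht⟩ := msh_zero σ (n + 1) (hab j hj) j (hsa j hj) (hsb j hj)
        exact ⟨t, fun _ => ht⟩
      · exact ⟨0, fun h => absurd h hj⟩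
    choose y hy using hex
    have hpos : ∀ i < n + 1, 0 < y i := by
      intro i hi
      obtain ⟨p1, p2, p3⟩ := hy i hi
      rcases Nat.eq_zero_or_pos i with h' | h'
      · subst h'
        rw [ha0] at p1
        refine lt_of_le_of_ne p1 fun h => ?_
        rw [← h] at p3
        unfold mshG at p3
        rw [Finset.sum_range_succ'] at p3
        simp at p3
      · obtain ⟨k, rfl⟩ : ∃ k, i = k + 1 := ⟨i - 1, by omega⟩
        rw [haS] at p1
        exact lt_of_lt_of_le (div_pos (hx k (by omega)) hs2) p1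
    have hsep : ∀ i, i + 1 < n + 1 → y i ≤ σ ^ 2 * y (i + 1) := by
      intro i hi
      obtain ⟨p1, p2, p3⟩ := hy i (by omega)
      obtain ⟨q1, q2, q3⟩ := hy (i + 1) hi
      rw [hbn i (by omega)] at p2
      rw [haS, div_le_iff₀ hs2] at q1
      linarith
    have hlt : ∀ i j, i < j → j < n + 1 → y i < y j := by
      intro i j hij
      induction j, hij using Nat.le_induction with
      | base =>
        intro hj
        have a1 := hsep i hj
        have a2 := hpos (i + 1) hj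
        nlinarith
      | succ j hij ih =>
        intro hj
        have a0 := ih (by omega)
        have a1 := hsep j hj
        have a2 := hpos (j + 1) hj
        nlinarith
    refine ⟨y, hpos, hsep, msh_prod σ (n + 1) y hpos ?_ (fun i hi => (hy i hi).2.2)⟩
    intro i hi j hj hij
    rcases lt_trichotomy i j with h | h | h
    · exact absurd hij (hlt i j h hj).ne
    · exact h
    · exact absurd hij (hlt j i h hi).ne'

theorem sq_mesh {σ : ℝ} (h0 : 0 < σ) (h1 : σ < 1) (n : ℕ) :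
    ∃ x : ℕ → ℝ, (∀ i < n, 0 < x i) ∧ (∀ i, i + 1 < n → x i ≤ σ ^ 2 * x (i + 1)) ∧
      ∀ y : ℝ, ∑ k ∈ range (n + 1), (n.choose k : ℝ) * σ ^ (k ^ 2) * y ^ k =
        ∏ i ∈ range n, (1 + y / x i) :=
  msh_main h0 h1 n

end Pool.Agent.MPd164ca
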